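import Pool.Agent.H15.QF.Val

/-!
# Actions on four and five points
-/

set_option autoImplicit false

namespace Pool.Agent.H15.QF

open Matrix Pool.Agent.Y144.DL Equiv

/-- the number of fixed points -/
def fx {n : ℕ} (s : Perm (Fin n)) : ℕ := (Finset.univ.filter fun i => s i = i).card

set_option maxRecDepth 100000 in
theorem class4 : ∀ s : Perm (Fin 4), s = 1 ∨ (s ≠ 1 ∧ s ^ 2 = 1 ∧ (fx s : ℤ) + Perm.sign s = 1) ∨
    (s ≠ 1 ∧ s ^ 3 = 1 ∧ fx s = 1 ∧ Perm.sign s = 1) ∨
    (s ^ 2 ≠ 1 ∧ s ^ 4 = 1 ∧ fx s = 0 ∧ Perm.sign s = -1) := by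
  decide +kernel

set_option maxRecDepth 100000 in
theorem class5 : ∀ s : Perm (Fin 5), Perm.sign s = 1 → s = 1 ∨ (s ≠ 1 ∧ s ^ 2 = 1 ∧ fx s = 1) ∨
    (s ≠ 1 ∧ s ^ 3 = 1 ∧ fx s = 2) ∨ (s ≠ 1 ∧ s ^ 5 = 1 ∧ fx s = 0) := by
  decide +kernel

set_option maxRecDepth 100000 in
theorem class5o : ∀ s : Perm (Fin 5), Perm.sign s = -1 → (s ^ 2 = 1 ∧ fx s = 3) ∨
    (s ^ 2 ≠ 1 ∧ (s ^ 2) ^ 2 = 1 ∧ fx s = 1) ∨ (s ^ 2 ≠ 1 ∧ (s ^ 2) ^ 3 = 1 ∧ fx s = 0) := by
  decide +kernel

variable {G : Type*} [Group G]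

/-- the action on the cosets, with the cosets numbered -/
noncomputable def act {n : ℕ} {H : Subgroup G} (e : G ⧸ H ≃ Fin n) : G →* Perm (Fin n) :=
  (e.permCongrHom.toMonoidHom).comp (MulAction.toPermHom G (G ⧸ H))

theorem act_apply {n : ℕ} {H : Subgroup G} (e : G ⧸ H ≃ Fin n) (g : G) (i : Fin n) :
    act e g i = e (g • e.symm i) := rfl

theorem act_eq_one {n : ℕ} {H : Subgroup G} (e : G ⧸ H ≃ Fin n) (g : G) :
    act e g = 1 ↔ ∀ x : G ⧸ H, g • x = x := by
  constructor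
  · intro h x
    have h1 := congrArg (fun s : Perm (Fin n) => s (e x)) h
    simp only [act_apply, Equiv.symm_apply_apply, Perm.one_apply] at h1
    exact e.injective h1
  · intro h
    ext i
    rw [act_apply, h]
    simp

theorem perm_act {n : ℕ} {H : Subgroup G} (e : G ⧸ H ≃ Fin n) (K : Type*) [Field K] (g : G) :
    perm K H g = (fx (act e g) : K) := by
  unfold perm fx
  congr 1
  rw [← Fintype.card_subtype, ← Nat.card_eq_fintype_card]
  refine Nat.card_congr
    { toFun := fun x => ⟨e x.1, by rw [act_apply, Equiv.symm_apply_apply, x.2]⟩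
      invFun := fun i => ⟨e.symm i.1, by
        have h := i.2
        rw [act_apply] at h
        exact e.injective (by rw [h]; simp)⟩
      left_inv := fun x => by simp
      right_inv := fun i => by simp }

open Classical in
/-- The sign of the permutation of the cosets of `H` given by `g`: for the Galois group `G` of a field
`F ⊇ K = F^H` it is the quadratic character of `ℚ(√d_K)`. -/
noncomputable def sgn [Finite G] (H : Subgroup G) : G →* ℤˣ :=
  letI := Fintype.ofFinite (G ⧸ H)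
  Perm.sign.comp (MulAction.toPermHom G (G ⧸ H))

theorem sgn_act [Finite G] {n : ℕ} {H : Subgroup G} (e : G ⧸ H ≃ Fin n) (g : G) :
    sgn H g = Perm.sign (act e g) := by
  classical
  let _ := Fintype.ofFinite (G ⧸ H)
  show Perm.sign (MulAction.toPerm g : Perm (G ⧸ H)) = Perm.sign (e.permCongr (MulAction.toPerm g))
  rw [Perm.sign_permCongr]

end Pool.Agent.H15.QF
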