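import Pool.Agent.H15.QF.Chars

/-!
# The permutation character of degree five, group `S₅`
-/

set_option autoImplicit false

namespace Pool.Agent.H15.QF

open Matrix Pool.Agent.Y144.DL Equiv

variable {E : Type*} [Field E] {G : Type*} [Group G]

/-- the permutation character of degree five, group `S₅`: `1` plus the tensor induction -/
theorem perm_asai [CharZero E] {H U : Subgroup G} (e : G ⧸ H ≃ Fin 5) (hU : U.index = 2) (τ : G)
    (hUs : ∀ g, g ∈ U ↔ Perm.sign (act e g) = 1) (ρ : U →* Matrix (Fin 2) (Fin 2) E)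
    (hρ : ∀ u : U, IsScal (ρ u) ↔ act e u = 1)
    (hd : ∀ u : U, (ρ u).det * (ρ ⟨τ⁻¹ * u * τ, conj_mem hU τ u.2⟩).det = 1)
    (hd' : ∀ g, g ∉ U → (ρ ⟨g ^ 2, sq_mem hU g⟩).det = 1)
    (hk : ∀ u : U, act e u = 1 → ∃ z z' : E, z * z' = 1 ∧ ρ u = z • 1 ∧
      ρ ⟨τ⁻¹ * u * τ, conj_mem hU τ u.2⟩ = z' • 1)
    (hk' : ∀ g, g ∉ U → act e (g ^ 2) = 1 → ρ ⟨g ^ 2, sq_mem hU g⟩ = 1)
    (h5 : ∀ u : U, act e u ≠ 1 → act e u ^ 5 = 1 →
      (ρ u).trace ^ 2 * (ρ ⟨τ⁻¹ * u * τ, conj_mem hU τ u.2⟩).det ≠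
        (ρ ⟨τ⁻¹ * u * τ, conj_mem hU τ u.2⟩).trace ^ 2 * (ρ u).det) (g : G) :
    perm E H g = 1 + asai hU τ ρ g := by
  rw [perm_act e]
  unfold asai
  by_cases hg : g ∈ U
  · rw [dif_pos hg]
    have hconj : ∀ h : G, act e (τ⁻¹ * h * τ) = 1 ↔ act e h = 1 := by
      intro h
      rw [map_mul, map_mul, map_inv]
      constructor
      · intro h1
        have h2 : act e h = act e τ * ((act e τ)⁻¹ * act e h * act e τ) * (act e τ)⁻¹ := by group
        rw [h2, h1]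
        group
      · intro h1
        rw [h1]
        group
    refine even_five (G := G) (act e g) ((hUs g).1 hg) (ρ ⟨g, hg⟩) (ρ ⟨τ⁻¹ * g * τ, conj_mem hU τ hg⟩)
      (hd ⟨g, hg⟩) (hρ ⟨g, hg⟩) ((hρ ⟨τ⁻¹ * g * τ, conj_mem hU τ hg⟩).trans (hconj g)) ?_ (h5 ⟨g, hg⟩)
    intro n hn
    obtain ⟨z, z', h1, h2, h3⟩ := hk (⟨g, hg⟩ ^ n) (by
      show act e (g ^ n) = 1
      rw [map_pow, hn])
    refine ⟨z, z', h1, by rw [← map_pow, h2], ?_⟩
    rw [← map_pow, ← h3]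
    congr 1
    apply Subtype.ext
    show (τ⁻¹ * g * τ) ^ n = τ⁻¹ * g ^ n * τ
    have := conj_pow (i := n) (a := τ⁻¹) (b := g)
    rwa [inv_inv] at this
  · rw [dif_neg hg]
    have hs : Perm.sign (act e g) = -1 := by
      rcases Int.units_eq_one_or (Perm.sign (act e g)) with h | h
      · exact absurd ((hUs g).2 h) hg
      · exact h
    rcases class5o (act e g) hs with ⟨a1, a2⟩ | ⟨a1, a2, a3⟩ | ⟨a1, a2, a3⟩
    · rw [hk' g hg (by rw [map_pow, a1]), a2]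
      simp
      norm_num
    · have h1 : ¬ IsScal (ρ ⟨g ^ 2, sq_mem hU g⟩) := by
        rw [hρ]
        show ¬ act e (g ^ 2) = 1
        rwa [map_pow]
      have h2 : IsScal (ρ ⟨g ^ 2, sq_mem hU g⟩ ^ 2) := by
        rw [← map_pow, hρ]
        show act e ((g ^ 2) ^ 2) = 1
        rw [map_pow, map_pow, a2]
      rw [trace_two h1 h2, a3]
      simp
    · have h1 : ¬ IsScal (ρ ⟨g ^ 2, sq_mem hU g⟩) := by
        rw [hρ]
        show ¬ act e (g ^ 2) = 1
        rwa [map_pow]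
      have hg3 : g ^ 3 ∉ U := by
        intro h
        apply hg
        have h2 := U.mul_mem (U.inv_mem (sq_mem hU g)) h
        have h3 : (g ^ 2)⁻¹ * g ^ 3 = g := by group
        rwa [h3] at h2
      have h2 : ρ ⟨g ^ 2, sq_mem hU g⟩ ^ 3 = (1 : E) • (1 : Matrix (Fin 2) (Fin 2) E) := by
        rw [← map_pow, one_smul]
        have h3 := hk' (g ^ 3) hg3 (by
          rw [map_pow, map_pow, ← a2, ← pow_mul, ← pow_mul])
        rw [← h3]
        congr 1
        apply Subtype.ext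
        show (g ^ 2) ^ 3 = (g ^ 3) ^ 2
        rw [← pow_mul, ← pow_mul]
      obtain ⟨t1, t2⟩ := trace_three h1 h2
      rw [hd' g hg] at t1
      rw [a3]
      push_cast
      linear_combination -t2 + (ρ ⟨g ^ 2, sq_mem hU g⟩).trace * t1

end Pool.Agent.H15.QF
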