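import Pool.Agent.H15.QF.Act

/-!
# The permutation characters of degrees four and five
-/

set_option autoImplicit false

namespace Pool.Agent.H15.QF

open Matrix Pool.Agent.Y144.DL Equiv

variable {E : Type*} [Field E] {G : Type*} [Group G]

/-- the determinant -/
def detU (ρ : G →* Matrix (Fin 2) (Fin 2) E) : G →* Eˣ := (Matrix.detMonoidHom.comp ρ).toHomUnits

theorem detU_apply (ρ : G →* Matrix (Fin 2) (Fin 2) E) (g : G) : (detU ρ g : E) = (ρ g).det := rfl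

/-- the twist with a linear character -/
def tw (χ : G →* Eˣ) (ρ : G →* Matrix (Fin 2) (Fin 2) E) : G →* Matrix (Fin 2) (Fin 2) E where
  toFun g := (χ g : E) • ρ g
  map_one' := by simp
  map_mul' g h := by
    rw [map_mul, map_mul, Units.val_mul, smul_mul_smul_comm]

theorem tw_apply (χ : G →* Eˣ) (ρ : G →* Matrix (Fin 2) (Fin 2) E) (g : G) :
    tw χ ρ g = (χ g : E) • ρ g := rfl

/-- a sign as an element of `E` -/
def sE (E : Type*) [Field E] : ℤˣ →* Eˣ := Units.map (Int.castRingHom E).toMonoidHom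

theorem sE_apply (u : ℤˣ) : (sE E u : E) = ((u : ℤ) : E) := rfl

theorem scal_pow {ρ : G →* Matrix (Fin 2) (Fin 2) E} {π : G → Prop} (hρ : ∀ g, IsScal (ρ g) ↔ π g)
    (g : G) (n : ℕ) : IsScal (ρ g ^ n) ↔ π (g ^ n) := by
  rw [← map_pow]
  exact hρ _

theorem units_sq' (u : ℤˣ) : ((u : ℤ) : E) * ((u : ℤ) : E) = 1 := by
  rcases Int.units_eq_one_or u with h | h <;> simp [h]

theorem det_ne (ρ : G →* Matrix (Fin 2) (Fin 2) E) (g : G) : (ρ g).det ≠ 0 := (detU ρ g).ne_zero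

/-- the permutation character of degree four: `perm + ε = 1 + ε ρ ⊗ ρ^∨` -/
theorem perm_four [CharZero E] [Finite G] {H : Subgroup G} (e : G ⧸ H ≃ Fin 4)
    (ρ : G →* Matrix (Fin 2) (Fin 2) E) (hρ : ∀ g, IsScal (ρ g) ↔ act e g = 1) (g : G) :
    perm E H g + ((sgn H g : ℤ) : E) =
      1 + (ρ g).trace * (tw ((sE E).comp (sgn H) * (detU ρ)⁻¹) ρ g).trace := by
  have hd := det_ne ρ g
  have htw : (tw ((sE E).comp (sgn H) * (detU ρ)⁻¹) ρ g).trace =
      ((sgn H g : ℤ) : E) * (ρ g).det⁻¹ * (ρ g).trace := by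
    rw [tw_apply, Matrix.trace_smul, MonoidHom.mul_apply, MonoidHom.inv_apply, Units.val_mul,
      Units.val_inv_eq_inv_val, detU_apply, MonoidHom.comp_apply, sE_apply, smul_eq_mul]
  rw [htw, perm_act e, sgn_act e]
  have hp : ∀ n : ℕ, IsScal (ρ g ^ n) ↔ (act e g) ^ n = 1 := by
    intro n
    rw [scal_pow hρ, map_pow]
  rcases class4 (act e g) with h | ⟨h1, h2, h3⟩ | ⟨h1, h2, h3, h4⟩ | ⟨h1, h2, h3, h4⟩
  · have hs : IsScal (ρ g) := (hρ g).2 h
    obtain ⟨a, ha⟩ := hs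
    rw [ha, scal_det] at hd
    rw [h, ha, scal_trace, scal_det]
    have hf : fx (1 : Perm (Fin 4)) = 4 := by decide
    rw [hf]
    have ha0 : a ≠ 0 := fun h0 => hd (by rw [h0, zero_mul])
    simp
    field_simp
    ring
  · have ht := trace_two (fun hs => h1 ((hρ g).1 hs)) ((hp 2).2 h2)
    rw [ht]
    have h5 : ((fx (act e g) : ℤ) : E) + ((Perm.sign (act e g) : ℤ) : E) = 1 := by
      rw [← Int.cast_add, h3, Int.cast_one]
    rw [Int.cast_natCast] at h5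
    rw [h5]
    ring
  · obtain ⟨z, hz⟩ := (hp 3).2 h2
    have ht := (trace_three (fun hs => h1 ((hρ g).1 hs)) hz).1
    rw [h3, h4]
    simp
    field_simp
    rw [ht]
  · have ht := trace_four (fun hs => h1 ((hp 2).1 hs)) ((hp 4).2 h2)
    rw [h3, h4]
    simp
    field_simp
    rw [ht]
    ring

/-- the product of the two traces of degree five at an even permutation -/
theorem even_five [CharZero E] {G : Type*} [Group G] (s : Perm (Fin 5)) (hs : Perm.sign s = 1)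
    (m m' : Matrix (Fin 2) (Fin 2) E) (hd : m.det * m'.det = 1)
    (h1 : IsScal m ↔ s = 1) (h1' : IsScal m' ↔ s = 1)
    (h2 : ∀ n : ℕ, s ^ n = 1 → ∃ z z' : E, z * z' = 1 ∧ m ^ n = z • 1 ∧ m' ^ n = z' • 1)
    (h5 : s ≠ 1 → s ^ 5 = 1 → m.trace ^ 2 * m'.det ≠ m'.trace ^ 2 * m.det) :
    (fx s : E) = 1 + m.trace * m'.trace := by
  rcases class5 s hs with h | ⟨a1, a2, a3⟩ | ⟨a1, a2, a3⟩ | ⟨a1, a2, a3⟩
  · obtain ⟨z, z', hz, e1, e2⟩ := h2 1 (by rw [h, pow_one])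
    rw [pow_one] at e1 e2
    rw [e1, e2, scal_trace, scal_trace, h]
    have hf : fx (1 : Perm (Fin 5)) = 5 := by decide
    rw [hf]
    push_cast
    linear_combination -4 * hz
  · obtain ⟨z, z', hz, e1, e2⟩ := h2 2 a2
    have ht := trace_two (fun hs => a1 (h1.1 hs)) ⟨z, e1⟩
    rw [ht, a3]
    simp
  · obtain ⟨z, z', hz, e1, e2⟩ := h2 3 a2
    obtain ⟨t1, t2⟩ := trace_three (fun hs => a1 (h1.1 hs)) e1
    obtain ⟨t1', t2'⟩ := trace_three (fun hs => a1 (h1'.1 hs)) e2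
    have hw2 : (m.trace * m'.trace) ^ 2 = 1 := by
      rw [mul_pow, t1, t1', hd]
    have hw3 : (m.trace * m'.trace) ^ 3 = 1 := by
      rw [t2, t2'] at hz
      linear_combination hz
    have hw : m.trace * m'.trace = 1 := by
      linear_combination hw3 - (m.trace * m'.trace) * hw2
    rw [hw, a3]
    norm_num
  · obtain ⟨z, z', hz, e1, e2⟩ := h2 5 a2
    obtain ⟨t1, t2⟩ := trace_five (fun hs => a1 (h1.1 hs)) e1
    obtain ⟨t1', t2'⟩ := trace_five (fun hs => a1 (h1'.1 hs)) e2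
    have hw := five_prod t1 t1' hd t2 t2' hz (h5 a1 a2)
    rw [hw, a3]
    simp

/-- the permutation character of degree five, group `A₅`: `perm = 1 + ρ ⊗ ρ'` -/
theorem perm_five [CharZero E] {H : Subgroup G} (e : G ⧸ H ≃ Fin 5)
    (ρ ρ' : G →* Matrix (Fin 2) (Fin 2) E) (heven : ∀ g, Perm.sign (act e g) = 1)
    (hρ : ∀ g, IsScal (ρ g) ↔ act e g = 1) (hρ' : ∀ g, IsScal (ρ' g) ↔ act e g = 1)
    (hd : ∀ g, (ρ g).det * (ρ' g).det = 1)
    (hk : ∀ g, act e g = 1 → ∃ z z' : E, z * z' = 1 ∧ ρ g = z • 1 ∧ ρ' g = z' • 1)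
    (h5 : ∀ g, act e g ≠ 1 → act e g ^ 5 = 1 →
      (ρ g).trace ^ 2 * (ρ' g).det ≠ (ρ' g).trace ^ 2 * (ρ g).det) (g : G) :
    perm E H g = 1 + (ρ g).trace * (ρ' g).trace := by
  rw [perm_act e]
  refine even_five (G := G) (act e g) (heven g) (ρ g) (ρ' g) (hd g) (hρ g) (hρ' g) ?_ (h5 g)
  intro n hn
  obtain ⟨z, z', h1, h2, h3⟩ := hk (g ^ n) (by rw [map_pow, hn])
  exact ⟨z, z', h1, by rw [← map_pow, h2], by rw [← map_pow, h3]⟩

end Pool.Agent.H15.QF
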