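import Pool.Agent.H15.QF.Asai

/-!
# Central values over quartic and quintic fields
-/

set_option autoImplicit false

namespace Pool.Agent.H15.QF

open Matrix Pool.Agent.Y144.DL Equiv

section

variable {E : Type} [Field E] {G : Type} [Group G]

/-- Known theorems on `L(A₀ ⊗ θ, 1)` for an elliptic curve `A₀` over `ℚ` (with Frobenius traces `M` and periods
`Ωp`, `i Ωm`) and a finite Galois extension of `ℚ` with group `G` and complex conjugation `c`; `A.δ` are the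
periods of the Artin motives.

* `linear`: Dirichlet characters `χ` (modular symbols).
* `triple`: `θ = ρ ⊗ ρ'` for odd two-dimensional representations `ρ`, `ρ'` (they belong to modular forms
  `g`, `g'` of weight one) with `det ρ det ρ' = 1`: the central value of the triple product `f × g × g'`. -/
structure Known (c : G) (M : FrobData E) (Fr : Nat.Primes → G) (A : ArtinPeriods E G) (Ωp Ωm : ℝ) :
    Prop where
  linear : ∀ χ : G →* Eˣ, Deligne c M Fr A Ωp Ωm fun g => (χ g : E)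
  triple : ∀ ρ ρ' : G →* Matrix (Fin 2) (Fin 2) E, (ρ c).trace = 0 → (ρ' c).trace = 0 →
    (∀ g, (ρ g).det * (ρ' g).det = 1) →
    Deligne c M Fr A Ωp Ωm fun g => (ρ g).trace * (ρ' g).trace

/-- Known theorem on the twisted triple products `f × As(g)`, `g` the Hilbert modular form of weight one of a
totally odd two-dimensional representation `ρ` of `U`, the group of a real quadratic field, whose determinant
is trivial on the ideles of `ℚ` (has trivial transfer to `G`). -/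
def KnownTwisted (c : G) (M : FrobData E) (Fr : Nat.Primes → G) (A : ArtinPeriods E G) (Ωp Ωm : ℝ) :
    Prop :=
  ∀ (U : Subgroup G) (hU : U.index = 2) (τ : G) (ρ : U →* Matrix (Fin 2) (Fin 2) E), τ ∉ U →
    (∀ u : U, IsConj c (u : G) → (ρ u).trace = 0) → c ∈ U →
    (∀ u : U, (ρ u).det * (ρ ⟨τ⁻¹ * u * τ, conj_mem hU τ u.2⟩).det = 1) →
    (∀ g, g ∉ U → (ρ ⟨g ^ 2, sq_mem hU g⟩).det = 1) → Deligne c M Fr A Ωp Ωm (asai hU τ ρ)

end

section

variable {E : Type} [Field E] [Algebra ℚ E] [Algebra.IsAlgebraic ℚ E] {G : Type} [Group G] [Finite G]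

theorem final_form (Ωp Ωm Δ : ℝ) (r₁ r₂ : ℕ) :
    (Ωp : ℂ) ^ (r₁ + r₂) * (Complex.I * Ωm) ^ r₂ * (Complex.I ^ r₂ * Δ) =
      Δ * Ωp ^ r₁ * ((((Ωp : ℂ) * (starRingEnd ℂ) (Complex.I * Ωm)).im : ℝ) : ℂ) ^ r₂ := by
  have h4 : ((Ωp : ℂ) * (starRingEnd ℂ) (Complex.I * Ωm)).im = -(Ωp * Ωm) := by
    simp
  rw [h4]
  push_cast
  have h5 : (Complex.I ^ r₂) * (Complex.I ^ r₂) = (-1) ^ r₂ := by
    rw [← mul_pow, Complex.I_mul_I]
  have h6 : (-((Ωp : ℂ) * Ωm)) ^ r₂ = (-1) ^ r₂ * (Ωp ^ r₂ * Ωm ^ r₂) := by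
    rw [neg_pow, mul_pow]
  rw [h6, ← h5, mul_pow, pow_add]
  ring

omit [Algebra ℚ E] [Algebra.IsAlgebraic ℚ E] in
/-- sums: Deligne's conjecture for `θ` and `θ'` implies it for `θ + θ'` -/
theorem deligne_add {M : FrobData E} {Fr : Nat.Primes → G} {A : ArtinPeriods E G} {Ωp Ωm : ℝ}
    {θ θ' : G → E} (hθ : IsChar θ) (hθ' : IsChar θ') {a b a' b' : ℕ}
    {e e' : E} (h : ∀ σ : E →+* ℂ, Val M Fr θ σ (σ e * ((Ωp : ℂ) ^ a * (Complex.I * Ωm) ^ b * A.δ θ σ)))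
    (h' : ∀ σ : E →+* ℂ, Val M Fr θ' σ (σ e' * ((Ωp : ℂ) ^ a' * (Complex.I * Ωm) ^ b' * A.δ θ' σ))) :
    ∃ e'' : E, ∀ σ : E →+* ℂ, Val M Fr (θ + θ') σ
      (σ e'' * ((Ωp : ℂ) ^ (a + a') * (Complex.I * Ωm) ^ (b + b') * A.δ (θ + θ') σ)) := by
  obtain ⟨u, hu, h1⟩ := A.add θ θ' hθ hθ'
  refine ⟨e * e' * u⁻¹, fun σ => ?_⟩
  have h2 := (h σ).add (h' σ)
  have hσu : σ u ≠ 0 := (map_ne_zero σ).2 hu
  rw [h1 σ, Pi.mul_apply]
  refine (congrArg (Val M Fr (θ + θ') σ) ?_).mp h2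
  rw [map_mul, map_mul, map_inv₀, pow_add, pow_add]
  field_simp

omit [Algebra ℚ E] [Algebra.IsAlgebraic ℚ E] in
/-- differences -/
theorem deligne_sub {M : FrobData E} {Fr : Nat.Primes → G} {A : ArtinPeriods E G} {Ωp Ωm : ℝ}
    (hp : Ωp ≠ 0) (hm : Ωm ≠ 0)
    {θ θ' θ'' : G → E} (hθ : IsChar θ) (hθ' : IsChar θ') (hs : θ'' = θ' + θ) {a b a' b' : ℕ}
    {e e' : E} (h : ∀ σ : E →+* ℂ, Val M Fr θ σ (σ e * ((Ωp : ℂ) ^ a * (Complex.I * Ωm) ^ b * A.δ θ σ)))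
    (h' : ∀ σ : E →+* ℂ,
      Val M Fr θ'' σ (σ e' * ((Ωp : ℂ) ^ (a' + a) * (Complex.I * Ωm) ^ (b' + b) * A.δ θ'' σ)))
    (he : e ≠ 0) :
    ∃ e'' : E, ∀ σ : E →+* ℂ, Val M Fr θ' σ
      (σ e'' * ((Ωp : ℂ) ^ a' * (Complex.I * Ωm) ^ b' * A.δ θ' σ)) := by
  obtain ⟨u, hu, h1⟩ := A.add θ' θ hθ' hθ
  refine ⟨e' * e⁻¹ * u, fun σ => ?_⟩
  have hσu : σ u ≠ 0 := (map_ne_zero σ).2 hu
  have hσe : σ e ≠ 0 := (map_ne_zero σ).2 he
  have hδ := A.ne_zero θ hθ σ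
  have hpc : (Ωp : ℂ) ≠ 0 := by exact_mod_cast hp
  have hmc : Complex.I * (Ωm : ℂ) ≠ 0 := mul_ne_zero Complex.I_ne_zero (by exact_mod_cast hm)
  have h2 := (h' σ).sub (h σ) (mul_ne_zero hσe (mul_ne_zero (mul_ne_zero (pow_ne_zero _ hpc)
    (pow_ne_zero _ hmc)) hδ)) hs
  refine (congrArg (Val M Fr θ' σ) ?_).mp h2
  rw [hs, h1 σ, Pi.mul_apply, map_mul, map_mul, map_inv₀, pow_add, pow_add]
  field_simp

/-- from the values over `E` to rationality -/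
theorem conclude {M : FrobData ℚ} {Fr : Nat.Primes → G} {A : ArtinPeriods E G} {Ωp Ωm : ℝ}
    (hp : Ωp ≠ 0) (hm : Ωm ≠ 0) (H : Subgroup G) (r₁ r₂ : ℕ) (Δ : ℝ)
    (hΔ : ∀ σ, A.δ (perm E H) σ = Complex.I ^ r₂ * Δ) (e : E)
    (h : ∀ σ : E →+* ℂ, Val (M.map E) Fr (perm E H) σ
      (σ e * ((Ωp : ℂ) ^ (r₁ + r₂) * (Complex.I * Ωm) ^ r₂ * A.δ (perm E H) σ))) :
    ∃ q : ℚ, Val M Fr (perm ℚ H) (algebraMap ℚ ℂ)
      (q * (Δ * Ωp ^ r₁ * ((((Ωp : ℂ) * (starRingEnd ℂ) (Complex.I * Ωm)).im : ℝ) : ℂ) ^ r₂)) := by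
  have φ : E →ₐ[ℚ] ℂ := IsAlgClosed.lift
  have hpc : (Ωp : ℂ) ≠ 0 := by exact_mod_cast hp
  have hmc : Complex.I * (Ωm : ℂ) ≠ 0 := mul_ne_zero Complex.I_ne_zero (by exact_mod_cast hm)
  have : CharZero E := algebraRat.charZero E
  have hδ := A.ne_zero (perm E H) (isChar_perm H) (φ : E →+* ℂ)
  rw [hΔ] at hδ
  have h0 := mul_ne_zero (mul_ne_zero (pow_ne_zero (r₁ + r₂) hpc) (pow_ne_zero r₂ hmc)) hδ
  rw [final_form] at h0
  refine rational_of h0 e fun σ => ?_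
  rw [← final_form, ← hΔ σ, perm_map]
  exact h σ

omit [Algebra ℚ E] [Algebra.IsAlgebraic ℚ E] in
/-- the trace of an involution which is not scalar -/
theorem trace_invol {G : Type} [Group G] (ρ : G →* Matrix (Fin 2) (Fin 2) E) {c : G} (hcc : c * c = 1)
    (h : ¬ IsScal (ρ c)) : (ρ c).trace = 0 := by
  refine trace_two h ⟨1, ?_⟩
  rw [← map_pow, pow_two, hcc, map_one, one_smul]

theorem exists_num {H : Subgroup G} {n : ℕ} (h : Nat.card (G ⧸ H) = n) : Nonempty (G ⧸ H ≃ Fin n) := by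
  have := Fintype.ofFinite (G ⧸ H)
  rw [Nat.card_eq_fintype_card] at h
  exact ⟨Fintype.equivFinOfCardEq h⟩

/-- quartic fields -/
theorem quartic {M : FrobData ℚ} {Fr : Nat.Primes → G} {A : ArtinPeriods E G} {Ωp Ωm : ℝ} {c : G}
    (hcc : c * c = 1) (hp : Ωp ≠ 0) (hm : Ωm ≠ 0) (hK : Known c (M.map E) Fr A Ωp Ωm) (H : Subgroup G)
    (r₁ r₂ : ℕ) (hr₁ : Nat.card {x : G ⧸ H // c • x = x} = r₁)
    (hr₂ : Nat.card (G ⧸ H) = r₁ + 2 * r₂) (Δ : ℝ)
    (hΔ : ∀ σ, A.δ (perm E H) σ = Complex.I ^ r₂ * Δ) (h4 : Nat.card (G ⧸ H) = 4)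
    (hreal : r₂ ≠ 0) (ρ : G →* Matrix (Fin 2) (Fin 2) E)
    (hρ : ∀ g, IsScal (ρ g) ↔ ∀ x : G ⧸ H, g • x = x)
    (hne : (∀ g, sgn H g = 1) ∨ ¬ Val M Fr (fun g => ((sgn H g : ℤ) : ℚ)) (algebraMap ℚ ℂ) 0) :
    ∃ q : ℚ, Val M Fr (perm ℚ H) (algebraMap ℚ ℂ)
      (q * (Δ * Ωp ^ r₁ * ((((Ωp : ℂ) * (starRingEnd ℂ) (Complex.I * Ωm)).im : ℝ) : ℂ) ^ r₂)) := by
  have : CharZero E := algebraRat.charZero E
  obtain ⟨e⟩ := exists_num h4
  have hρ' : ∀ g, IsScal (ρ g) ↔ act e g = 1 := fun g => (hρ g).trans (act_eq_one e g).symm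
  -- complex conjugation
  have hcx : ¬ IsScal (ρ c) := by
    intro h
    have h1 := (hρ c).1 h
    have h2 : Nat.card {x : G ⧸ H // c • x = x} = Nat.card (G ⧸ H) :=
      Nat.card_congr (Equiv.subtypeUnivEquiv h1)
    omega
  have ht := trace_invol ρ hcc hcx
  set χ : G →* Eˣ := (sE E).comp (sgn H) with hχ
  set ρ' := tw (χ * (detU ρ)⁻¹) ρ with hρ'def
  have ht' : (ρ' c).trace = 0 := by
    rw [hρ'def, tw_apply, Matrix.trace_smul, ht, smul_zero]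
  have hχ2 : ∀ g, (χ g : E) * (χ g : E) = 1 := fun g => units_sq' (sgn H g)
  have hdet : ∀ g, (ρ g).det * (ρ' g).det = 1 := by
    intro g
    have hd := det_ne ρ g
    rw [hρ'def, tw_apply, Matrix.det_smul, MonoidHom.mul_apply, MonoidHom.inv_apply, Units.val_mul,
      Units.val_inv_eq_inv_val, detU_apply]
    simp only [Fintype.card_fin]
    field_simp
    linear_combination hχ2 g
  have hchar : ∀ g, perm E H g + (χ g : E) = 1 + (ρ g).trace * (ρ' g).trace := perm_four e ρ hρ'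
  have hone : ∀ n : ℕ, ((ρ 1).trace * (ρ' 1).trace = (n : E)) ↔ 4 = n := by
    intro n
    rw [map_one, map_one]
    simp only [Matrix.trace_one, Fintype.card_fin]
    constructor
    · intro h
      have h1 : ((4 : ℕ) : E) = (n : E) := by
        rw [← h]
        norm_num
      exact_mod_cast h1
    · rintro rfl
      norm_num
  obtain ⟨e₂, he₂⟩ := hK.triple ρ ρ' ht ht' hdet 2 2
    (by
      show (ρ 1).trace * (ρ' 1).trace = _
      rw [(hone 4).2 rfl]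
      norm_num)
    (by
      show (ρ c).trace * (ρ' c).trace = _
      rw [ht]
      norm_num)
  have hc0 : (perm E H c) + (χ c : E) = 1 := by
    rw [hchar c, ht]
    ring
  have hpc : perm E H c = (r₁ : E) := by
    show ((Nat.card {x : G ⧸ H // c • x = x} : ℕ) : E) = _
    rw [hr₁]
  have htens := isChar_tensor ρ ρ'
  rcases hne with hev | hne
  · have hχ1 : ∀ g, (χ g : E) = 1 := by
      intro g
      rw [hχ, MonoidHom.comp_apply, hev g, map_one, Units.val_one]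
    have hpe : perm E H = fun g => (ρ g).trace * (ρ' g).trace := by
      funext g
      have h1 := hchar g
      rw [hχ1 g] at h1
      linear_combination h1
    rw [hpc, hχ1 c] at hc0
    have h0 : (r₁ : E) = 0 := by linear_combination hc0
    have h1 : r₁ = 0 := by exact_mod_cast h0
    have h2 : r₂ = 2 := by omega
    refine conclude hp hm H r₁ r₂ Δ hΔ e₂ fun σ => ?_
    rw [h1, h2, zero_add, hpe]
    exact he₂ σ
  · have hχchar : IsChar fun g => (χ g : E) := isChar_linear χ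
    have hpchar : IsChar (perm E H) := isChar_perm H
    have hone' : IsChar (1 : G → E) := isChar_one
    obtain ⟨e₁, he₁⟩ := hK.linear 1 1 0 (by simp) (by simp)
    have he₁' : ∀ σ : E →+* ℂ, Val (M.map E) Fr (1 : G → E) σ
        (σ e₁ * ((Ωp : ℂ) ^ 1 * (Complex.I * Ωm) ^ 0 * A.δ (1 : G → E) σ)) := by
      intro σ
      have h1 : (fun g : G => (((1 : G →* Eˣ) g : Eˣ) : E)) = (1 : G → E) := by
        funext g
        simp
      have h2 := he₁ σ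
      rwa [h1] at h2
    obtain ⟨e₃, he₃⟩ := deligne_add hone' htens he₁' he₂
    have hsum : (1 : G → E) + (fun g => (ρ g).trace * (ρ' g).trace) =
        perm E H + fun g => (χ g : E) := by
      funext g
      exact (hchar g).symm
    rw [hsum] at he₃
    -- the quadratic twist
    have key : ∀ a b : ℕ, (χ 1 : E) = a + b → (χ c : E) = a - b → r₁ + r₂ + a = 3 → r₂ + b = 2 →
        ∃ q : ℚ, Val M Fr (perm ℚ H) (algebraMap ℚ ℂ)
          (q * (Δ * Ωp ^ r₁ *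
            ((((Ωp : ℂ) * (starRingEnd ℂ) (Complex.I * Ωm)).im : ℝ) : ℂ) ^ r₂)) := by
      intro a b h1 h2 h3 h4'
      obtain ⟨e₄, he₄⟩ := hK.linear χ a b h1 h2
      have he0 : e₄ ≠ 0 := by
        rintro rfl
        apply hne
        have φ : E →ₐ[ℚ] ℂ := IsAlgClosed.lift
        have h5 := he₄ (φ : E →+* ℂ)
        rw [map_zero, zero_mul] at h5
        refine Val.of_map (E := E) (σ := (φ : E →+* ℂ)) ?_
        refine (congrArg (fun θ => Val (M.map E) Fr θ (φ : E →+* ℂ) 0) ?_).mp h5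
        funext g
        show ((sgn H g : ℤ) : E) = algebraMap ℚ E ((sgn H g : ℤ) : ℚ)
        rw [map_intCast]
      have h6 : ∀ σ : E →+* ℂ, Val (M.map E) Fr (perm E H + fun g => (χ g : E)) σ
          (σ e₃ * ((Ωp : ℂ) ^ (r₁ + r₂ + a) * (Complex.I * Ωm) ^ (r₂ + b) *
            A.δ (perm E H + fun g => (χ g : E)) σ)) := by
        intro σ
        have h7 := he₃ σ
        have h8 : 1 + 2 = r₁ + r₂ + a := by omega
        have h9 : 0 + 2 = r₂ + b := by omega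
        rw [h8, h9] at h7
        exact h7
      obtain ⟨e₅, he₅⟩ := deligne_sub hp hm hχchar hpchar rfl he₄ h6 he0
      exact conclude hp hm H r₁ r₂ Δ hΔ e₅ he₅
    rcases Int.units_eq_one_or (sgn H c) with hs | hs
    · have hχc : (χ c : E) = 1 := by
        rw [hχ, MonoidHom.comp_apply, hs, map_one, Units.val_one]
      rw [hpc, hχc] at hc0
      have h0 : (r₁ : E) = 0 := by linear_combination hc0
      have h1 : r₁ = 0 := by exact_mod_cast h0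
      exact key 1 0 (by simp) (by rw [hχc]; simp) (by omega) (by omega)
    · have hχc : (χ c : E) = -1 := by
        rw [hχ, MonoidHom.comp_apply, hs]
        show (((-1 : ℤˣ) : ℤ) : E) = -1
        simp
      rw [hpc, hχc] at hc0
      have h0 : (r₁ : E) = 2 := by linear_combination hc0
      have h1 : r₁ = 2 := by exact_mod_cast h0
      exact key 0 1 (by simp) (by rw [hχc]; simp) (by omega) (by omega)

/-- the value of the sum of the trivial character and a character with signature `(2, 2)` -/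
theorem quintic_aux {M : FrobData ℚ} {Fr : Nat.Primes → G} {A : ArtinPeriods E G} {Ωp Ωm : ℝ} {c : G}
    (hp : Ωp ≠ 0) (hm : Ωm ≠ 0) (hK : Known c (M.map E) Fr A Ωp Ωm) (H : Subgroup G)
    (r₁ r₂ : ℕ) (hr₁ : Nat.card {x : G ⧸ H // c • x = x} = r₁)
    (hr₂ : Nat.card (G ⧸ H) = r₁ + 2 * r₂) (Δ : ℝ)
    (hΔ : ∀ σ, A.δ (perm E H) σ = Complex.I ^ r₂ * Δ) (h5 : Nat.card (G ⧸ H) = 5)
    (θ : G → E) (hθ : IsChar θ) (h : ∀ g, perm E H g = 1 + θ g) (hc : θ c = 0)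
    (hD : Deligne c (M.map E) Fr A Ωp Ωm θ) :
    ∃ q : ℚ, Val M Fr (perm ℚ H) (algebraMap ℚ ℂ)
      (q * (Δ * Ωp ^ r₁ * ((((Ωp : ℂ) * (starRingEnd ℂ) (Complex.I * Ωm)).im : ℝ) : ℂ) ^ r₂)) := by
  have : CharZero E := algebraRat.charZero E
  have hpc : perm E H c = (r₁ : E) := by
    show ((Nat.card {x : G ⧸ H // c • x = x} : ℕ) : E) = _
    rw [hr₁]
  have h0 : (r₁ : E) = 1 := by rw [← hpc, h c, hc, add_zero]
  have h1 : r₁ = 1 := by exact_mod_cast h0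
  have h2 : r₂ = 2 := by omega
  have h3 : θ 1 = 4 := by
    have h4 := h 1
    rw [perm_one, h5] at h4
    push_cast at h4
    linear_combination -h4
  obtain ⟨e₁, he₁⟩ := hK.linear 1 1 0 (by simp) (by simp)
  have he₁' : ∀ σ : E →+* ℂ, Val (M.map E) Fr (1 : G → E) σ
      (σ e₁ * ((Ωp : ℂ) ^ 1 * (Complex.I * Ωm) ^ 0 * A.δ (1 : G → E) σ)) := by
    intro σ
    have h1 : (fun g : G => (((1 : G →* Eˣ) g : Eˣ) : E)) = (1 : G → E) := by
      funext g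
      simp
    have h2 := he₁ σ
    rwa [h1] at h2
  obtain ⟨e₂, he₂⟩ := hD 2 2 (by rw [h3]; norm_num) (by rw [hc]; norm_num)
  obtain ⟨e₃, he₃⟩ := deligne_add isChar_one hθ he₁' he₂
  have hsum : (1 : G → E) + θ = perm E H := by
    funext g
    exact (h g).symm
  rw [hsum] at he₃
  refine conclude hp hm H r₁ r₂ Δ hΔ e₃ fun σ => ?_
  rw [h1, h2]
  exact he₃ σ

/-- quintic fields, group `A₅` -/
theorem quintic_even {M : FrobData ℚ} {Fr : Nat.Primes → G} {A : ArtinPeriods E G} {Ωp Ωm : ℝ} {c : G}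
    (hcc : c * c = 1) (hp : Ωp ≠ 0) (hm : Ωm ≠ 0) (hK : Known c (M.map E) Fr A Ωp Ωm) (H : Subgroup G)
    (r₁ r₂ : ℕ) (hr₁ : Nat.card {x : G ⧸ H // c • x = x} = r₁)
    (hr₂ : Nat.card (G ⧸ H) = r₁ + 2 * r₂) (Δ : ℝ)
    (hΔ : ∀ σ, A.δ (perm E H) σ = Complex.I ^ r₂ * Δ) (h5 : Nat.card (G ⧸ H) = 5)
    (hreal : r₂ ≠ 0) (heven : ∀ g, sgn H g = 1) (ρ ρ' : G →* Matrix (Fin 2) (Fin 2) E)
    (hρ : ∀ g, IsScal (ρ g) ↔ ∀ x : G ⧸ H, g • x = x)
    (hρ' : ∀ g, IsScal (ρ' g) ↔ ∀ x : G ⧸ H, g • x = x)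
    (hd : ∀ g, (ρ g).det * (ρ' g).det = 1)
    (hk : ∀ g, (∀ x : G ⧸ H, g • x = x) → ∃ z z' : E, z * z' = 1 ∧ ρ g = z • 1 ∧ ρ' g = z' • 1)
    (hn : ∀ g, (¬ ∀ x : G ⧸ H, g • x = x) → (∀ x : G ⧸ H, g ^ 5 • x = x) →
      (ρ g).trace ^ 2 * (ρ' g).det ≠ (ρ' g).trace ^ 2 * (ρ g).det) :
    ∃ q : ℚ, Val M Fr (perm ℚ H) (algebraMap ℚ ℂ)
      (q * (Δ * Ωp ^ r₁ * ((((Ωp : ℂ) * (starRingEnd ℂ) (Complex.I * Ωm)).im : ℝ) : ℂ) ^ r₂)) := by
  have : CharZero E := algebraRat.charZero E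
  obtain ⟨e⟩ := exists_num h5
  have hcx : ¬ ∀ x : G ⧸ H, c • x = x := by
    intro h1
    have h2 : Nat.card {x : G ⧸ H // c • x = x} = Nat.card (G ⧸ H) :=
      Nat.card_congr (Equiv.subtypeUnivEquiv h1)
    omega
  have ht := trace_invol ρ hcc (fun h => hcx ((hρ c).1 h))
  have ht' := trace_invol ρ' hcc (fun h => hcx ((hρ' c).1 h))
  have hchar := perm_five e ρ ρ' (fun g => by rw [← sgn_act e, heven])
    (fun g => (hρ g).trans (act_eq_one e g).symm) (fun g => (hρ' g).trans (act_eq_one e g).symm) hd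
    (fun g hg => hk g ((act_eq_one e g).1 hg))
    (fun g hg hg5 => hn g (fun h => hg ((act_eq_one e g).2 h))
      ((act_eq_one e (g ^ 5)).1 (by rw [map_pow, hg5])))
  exact quintic_aux hp hm hK H r₁ r₂ hr₁ hr₂ Δ hΔ h5 _ (isChar_tensor ρ ρ') hchar
    (by
      show (ρ c).trace * (ρ' c).trace = 0
      rw [ht, zero_mul])
    (hK.triple ρ ρ' ht ht' hd)

/-- quintic fields, group `S₅` -/
theorem quintic_odd {M : FrobData ℚ} {Fr : Nat.Primes → G} {A : ArtinPeriods E G} {Ωp Ωm : ℝ} {c : G}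
    (hcc : c * c = 1) (hp : Ωp ≠ 0) (hm : Ωm ≠ 0) (hK : Known c (M.map E) Fr A Ωp Ωm)
    (hT : KnownTwisted c (M.map E) Fr A Ωp Ωm) (H : Subgroup G)
    (r₁ r₂ : ℕ) (hr₁ : Nat.card {x : G ⧸ H // c • x = x} = r₁)
    (hr₂ : Nat.card (G ⧸ H) = r₁ + 2 * r₂) (Δ : ℝ)
    (hΔ : ∀ σ, A.δ (perm E H) σ = Complex.I ^ r₂ * Δ) (h5 : Nat.card (G ⧸ H) = 5)
    (hreal : r₂ = 2) (U : Subgroup G) (hU : U.index = 2) (hUs : ∀ g, g ∈ U ↔ sgn H g = 1) (τ : G)
    (hτ : τ ∉ U) (ρ : U →* Matrix (Fin 2) (Fin 2) E)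
    (hρ : ∀ u : U, IsScal (ρ u) ↔ ∀ x : G ⧸ H, (u : G) • x = x)
    (hd : ∀ u : U, (ρ u).det * (ρ ⟨τ⁻¹ * u * τ, conj_mem hU τ u.2⟩).det = 1)
    (hd' : ∀ g, g ∉ U → (ρ ⟨g ^ 2, sq_mem hU g⟩).det = 1)
    (hk : ∀ u : U, (∀ x : G ⧸ H, (u : G) • x = x) → ∃ z z' : E, z * z' = 1 ∧ ρ u = z • 1 ∧
      ρ ⟨τ⁻¹ * u * τ, conj_mem hU τ u.2⟩ = z' • 1)
    (hk' : ∀ g, g ∉ U → (∀ x : G ⧸ H, g ^ 2 • x = x) → ρ ⟨g ^ 2, sq_mem hU g⟩ = 1)
    (hn : ∀ u : U, (¬ ∀ x : G ⧸ H, (u : G) • x = x) → (∀ x : G ⧸ H, (u : G) ^ 5 • x = x) →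
      (ρ u).trace ^ 2 * (ρ ⟨τ⁻¹ * u * τ, conj_mem hU τ u.2⟩).det ≠
        (ρ ⟨τ⁻¹ * u * τ, conj_mem hU τ u.2⟩).trace ^ 2 * (ρ u).det) :
    ∃ q : ℚ, Val M Fr (perm ℚ H) (algebraMap ℚ ℂ)
      (q * (Δ * Ωp ^ r₁ * ((((Ωp : ℂ) * (starRingEnd ℂ) (Complex.I * Ωm)).im : ℝ) : ℂ) ^ r₂)) := by
  have : CharZero E := algebraRat.charZero E
  obtain ⟨e⟩ := exists_num h5
  have hcx : ¬ ∀ x : G ⧸ H, c • x = x := by
    intro h1
    have h2 : Nat.card {x : G ⧸ H // c • x = x} = Nat.card (G ⧸ H) :=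
      Nat.card_congr (Equiv.subtypeUnivEquiv h1)
    omega
  have hUs' : ∀ g, g ∈ U ↔ Perm.sign (act e g) = 1 := fun g => by rw [hUs, sgn_act e]
  have hchar := perm_asai e hU τ hUs' ρ (fun u => (hρ u).trans (act_eq_one e (u : G)).symm) hd hd'
    (fun u hu => hk u ((act_eq_one e (u : G)).1 hu))
    (fun g hg h => hk' g hg ((act_eq_one e (g ^ 2)).1 h))
    (fun u hu hu5 => hn u (fun h => hu ((act_eq_one e (u : G)).2 h))
      ((act_eq_one e ((u : G) ^ 5)).1 (by rw [map_pow, hu5])))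
  -- complex conjugation is even
  have hcU : c ∈ U := by
    by_contra hcU
    have h1 := hchar c
    have h2 : asai hU τ ρ c = 2 := by
      unfold asai
      rw [dif_neg hcU]
      have h3 : (⟨c ^ 2, sq_mem hU c⟩ : U) = 1 := by
        apply Subtype.ext
        show c ^ 2 = 1
        rw [pow_two, hcc]
      rw [h3, map_one]
      simp
    have h3 : perm E H c = (r₁ : E) := by
      show ((Nat.card {x : G ⧸ H // c • x = x} : ℕ) : E) = _
      rw [hr₁]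
    rw [h2, h3] at h1
    have h4 : (r₁ : E) = ((3 : ℕ) : E) := by
      rw [h1]
      norm_num
    have h5 : r₁ = 3 := by exact_mod_cast h4
    omega
  have hodd : ∀ u : U, IsConj c (u : G) → (ρ u).trace = 0 := by
    intro u hu
    obtain ⟨x, hx⟩ := isConj_iff.1 hu
    have h1 : ¬ IsScal (ρ u) := by
      rw [hρ]
      intro h
      apply hcx
      intro y
      have h2 := h (x • y)
      rw [← hx, smul_smul] at h2
      have h3 : x * c * x⁻¹ * x = x * c := by group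
      rw [h3, mul_smul] at h2
      exact MulAction.injective x h2
    refine trace_invol ρ (G := U) ?_ h1
    apply Subtype.ext
    show (u : G) * u = 1
    rw [← hx]
    calc x * c * x⁻¹ * (x * c * x⁻¹) = x * (c * c) * x⁻¹ := by group
      _ = 1 := by rw [hcc]; group
  have hc0 : asai hU τ ρ c = 0 := by
    unfold asai
    rw [dif_pos hcU, hodd ⟨c, hcU⟩ (IsConj.refl c), zero_mul]
  exact quintic_aux hp hm hK H r₁ r₂ hr₁ hr₂ Δ hΔ h5 _ (isChar_asai hU τ hτ ρ) hchar hc0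
    (hT U hU τ ρ hτ hodd hcU hd hd')

end

end Pool.Agent.H15.QF
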