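import Pool.Agent.H15.QF.Two
import Pool.Graph.R_pool_sql_team_seeded_1acbe0a2.Y144.DL.Fam

/-!
# Tensor products and tensor induction of two-dimensional representations
-/

set_option autoImplicit false

namespace Pool.Agent.H15.QF

open Matrix Pool.Agent.Y144.DL

variable {E : Type*} [Field E] {G : Type*} [Group G]

theorem isChar_tensor (ρ ρ' : G →* Matrix (Fin 2) (Fin 2) E) :
    IsChar fun g => (ρ g).trace * (ρ' g).trace := by
  have h := isChar_of_fintype (ι := Fin 2 × Fin 2)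
    { toFun := fun g => Matrix.kronecker (ρ g) (ρ' g)
      map_one' := by
        show Matrix.kronecker (ρ 1) (ρ' 1) = 1
        rw [map_one, map_one]
        exact Matrix.one_kronecker_one
      map_mul' := by
        intro g h
        show Matrix.kronecker (ρ (g * h)) (ρ' (g * h)) = Matrix.kronecker (ρ g) (ρ' g) * Matrix.kronecker (ρ h) (ρ' h)
        rw [map_mul, map_mul]
        exact Matrix.mul_kronecker_mul _ _ _ _ }
  refine (congrArg IsChar ?_).mp h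
  funext g
  exact Matrix.trace_kronecker (ρ g) (ρ' g)

variable {U : Subgroup G}

theorem conj_mem (hU : U.index = 2) (τ : G) {g : G} (hg : g ∈ U) : τ⁻¹ * g * τ ∈ U := by
  have hn : U.Normal := Subgroup.normal_of_index_eq_two hU
  simpa using hn.conj_mem g hg τ⁻¹

theorem sq_mem (hU : U.index = 2) (g : G) : g ^ 2 ∈ U := Subgroup.sq_mem_of_index_two hU g

open Classical in
/-- The character of the tensor induction of the two-dimensional representation `ρ` of the subgroup `U` of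
index two, `τ ∉ U`: `tr ρ(g) tr ρ(τ⁻¹ g τ)` for `g ∈ U` and `tr ρ(g ^ 2)` for `g ∉ U`. -/
noncomputable def asai (hU : U.index = 2) (τ : G) (ρ : U →* Matrix (Fin 2) (Fin 2) E) (g : G) : E :=
  if h : g ∈ U then (ρ ⟨g, h⟩).trace * (ρ ⟨τ⁻¹ * g * τ, conj_mem hU τ h⟩).trace
  else (ρ ⟨g ^ 2, sq_mem hU g⟩).trace

theorem mul_mem_of_not (hU : U.index = 2) {a b : G} (ha : a ∉ U) (hb : b ∉ U) : a * b ∈ U :=
  (Subgroup.mul_mem_iff_of_index_two hU).2 (by tauto)

theorem inv_mul_mem (hU : U.index = 2) {a b : G} (ha : a ∉ U) (hb : b ∉ U) : a⁻¹ * b ∈ U :=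
  mul_mem_of_not hU (fun h => ha (by simpa using U.inv_mem h)) hb

/-- the twisted tensor product of two matrices -/
def sw (a b : Matrix (Fin 2) (Fin 2) E) : Matrix (Fin 2 × Fin 2) (Fin 2 × Fin 2) E :=
  fun i j => a i.1 j.2 * b i.2 j.1

theorem trace_sw (a b : Matrix (Fin 2) (Fin 2) E) : (sw a b).trace = (a * b).trace := by
  simp [Matrix.trace, sw, Fintype.sum_prod_type, Matrix.mul_apply]

theorem kron_mul_sw (a b c d : Matrix (Fin 2) (Fin 2) E) :
    Matrix.kronecker a b * sw c d = sw (a * c) (b * d) := by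
  ext i j
  simp only [Matrix.mul_apply, sw, Fintype.sum_prod_type, Fin.sum_univ_two, Matrix.kronecker,
    Matrix.kroneckerMap_apply]
  ring

theorem sw_mul_kron (a b c d : Matrix (Fin 2) (Fin 2) E) :
    sw a b * Matrix.kronecker c d = sw (a * d) (b * c) := by
  ext i j
  simp only [Matrix.mul_apply, sw, Fintype.sum_prod_type, Fin.sum_univ_two, Matrix.kronecker,
    Matrix.kroneckerMap_apply]
  ring

theorem sw_mul_sw (a b c d : Matrix (Fin 2) (Fin 2) E) :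
    sw a b * sw c d = Matrix.kronecker (a * d) (b * c) := by
  ext i j
  simp only [Matrix.mul_apply, sw, Fintype.sum_prod_type, Fin.sum_univ_two, Matrix.kronecker,
    Matrix.kroneckerMap_apply]
  ring

open Classical in
/-- the matrices of the tensor induction -/
noncomputable def asaiMat (hU : U.index = 2) (τ : G) (hτ : τ ∉ U) (ρ : U →* Matrix (Fin 2) (Fin 2) E) (g : G) :
    Matrix (Fin 2 × Fin 2) (Fin 2 × Fin 2) E :=
  if h : g ∈ U then Matrix.kronecker (ρ ⟨g, h⟩) (ρ ⟨τ⁻¹ * g * τ, conj_mem hU τ h⟩)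
  else sw (ρ ⟨g * τ, mul_mem_of_not hU h hτ⟩) (ρ ⟨τ⁻¹ * g, inv_mul_mem hU hτ h⟩)

theorem asaiMat_mem (hU : U.index = 2) (τ : G) (hτ : τ ∉ U) (ρ : U →* Matrix (Fin 2) (Fin 2) E) {g : G}
    (h : g ∈ U) : asaiMat hU τ hτ ρ g =
      Matrix.kronecker (ρ ⟨g, h⟩) (ρ ⟨τ⁻¹ * g * τ, conj_mem hU τ h⟩) := by
  unfold asaiMat
  rw [dif_pos h]

theorem asaiMat_not_mem (hU : U.index = 2) (τ : G) (hτ : τ ∉ U) (ρ : U →* Matrix (Fin 2) (Fin 2) E) {g : G}
    (h : g ∉ U) : asaiMat hU τ hτ ρ g =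
      sw (ρ ⟨g * τ, mul_mem_of_not hU h hτ⟩) (ρ ⟨τ⁻¹ * g, inv_mul_mem hU hτ h⟩) := by
  unfold asaiMat
  rw [dif_neg h]

theorem asaiMat_mul (hU : U.index = 2) (τ : G) (hτ : τ ∉ U) (ρ : U →* Matrix (Fin 2) (Fin 2) E) (g h : G) :
    asaiMat hU τ hτ ρ (g * h) = asaiMat hU τ hτ ρ g * asaiMat hU τ hτ ρ h := by
  by_cases hg : g ∈ U <;> by_cases hh : h ∈ U
  · rw [asaiMat_mem hU τ hτ ρ (U.mul_mem hg hh), asaiMat_mem hU τ hτ ρ hg, asaiMat_mem hU τ hτ ρ hh]
    rw [show (Matrix.kronecker (ρ ⟨g, hg⟩) (ρ ⟨τ⁻¹ * g * τ, conj_mem hU τ hg⟩) *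
      Matrix.kronecker (ρ ⟨h, hh⟩) (ρ ⟨τ⁻¹ * h * τ, conj_mem hU τ hh⟩)) =
      Matrix.kronecker (ρ ⟨g, hg⟩ * ρ ⟨h, hh⟩) (ρ ⟨τ⁻¹ * g * τ, conj_mem hU τ hg⟩ *
        ρ ⟨τ⁻¹ * h * τ, conj_mem hU τ hh⟩) from (Matrix.mul_kronecker_mul _ _ _ _).symm]
    rw [← map_mul, ← map_mul]
    congr 2
    simp [mul_assoc]
  · have hgh : g * h ∉ U := fun h1 => hh ((U.mul_mem_cancel_left hg).1 h1)
    rw [asaiMat_not_mem hU τ hτ ρ hgh, asaiMat_mem hU τ hτ ρ hg, asaiMat_not_mem hU τ hτ ρ hh, kron_mul_sw,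
      ← map_mul, ← map_mul]
    congr 2 <;> simp [mul_assoc]
  · have hgh : g * h ∉ U := fun h1 => hg ((U.mul_mem_cancel_right hh).1 h1)
    rw [asaiMat_not_mem hU τ hτ ρ hgh, asaiMat_not_mem hU τ hτ ρ hg, asaiMat_mem hU τ hτ ρ hh, sw_mul_kron,
      ← map_mul, ← map_mul]
    congr 2 <;> simp [mul_assoc]
  · have hgh : g * h ∈ U := mul_mem_of_not hU hg hh
    rw [asaiMat_mem hU τ hτ ρ hgh, asaiMat_not_mem hU τ hτ ρ hg, asaiMat_not_mem hU τ hτ ρ hh, sw_mul_sw,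
      ← map_mul, ← map_mul]
    congr 2 <;> simp [mul_assoc]

theorem isChar_asai (hU : U.index = 2) (τ : G) (hτ : τ ∉ U) (ρ : U →* Matrix (Fin 2) (Fin 2) E) :
    IsChar (asai hU τ ρ) := by
  have h := isChar_of_fintype (ι := Fin 2 × Fin 2)
    { toFun := asaiMat hU τ hτ ρ
      map_one' := by
        rw [asaiMat_mem hU τ hτ ρ U.one_mem]
        have h1 : (⟨1, U.one_mem⟩ : U) = 1 := rfl
        have h2 : (⟨τ⁻¹ * 1 * τ, conj_mem hU τ U.one_mem⟩ : U) = 1 := by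
          apply Subtype.ext
          simp
        rw [h1, h2, map_one]
        exact Matrix.one_kronecker_one
      map_mul' := asaiMat_mul hU τ hτ ρ }
  refine (congrArg IsChar ?_).mp h
  funext g
  show (asaiMat hU τ hτ ρ g).trace = asai hU τ ρ g
  unfold asai
  by_cases hg : g ∈ U
  · rw [dif_pos hg, asaiMat_mem hU τ hτ ρ hg]
    exact Matrix.trace_kronecker _ _
  · rw [dif_neg hg, asaiMat_not_mem hU τ hτ ρ hg, trace_sw, ← map_mul]
    congr 2
    apply Subtype.ext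
    simp [pow_two, mul_assoc]

end Pool.Agent.H15.QF
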