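import Mathlib

/-!
# Two by two matrices whose powers are scalar
-/

set_option autoImplicit false

namespace Pool.Agent.H15.QF

open Matrix

variable {E : Type*} [Field E]

/-- a scalar matrix -/
def IsScal (m : Matrix (Fin 2) (Fin 2) E) : Prop := ∃ a : E, m = a • (1 : Matrix (Fin 2) (Fin 2) E)

theorem sq_eq (m : Matrix (Fin 2) (Fin 2) E) : m * m = m.trace • m - m.det • (1 : Matrix (Fin 2) (Fin 2) E) := by
  ext i j
  fin_cases i <;> fin_cases j <;>
    simp [Matrix.mul_apply, Fin.sum_univ_two, Matrix.trace_fin_two, Matrix.det_fin_two] <;> ring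

theorem coeff_zero {m : Matrix (Fin 2) (Fin 2) E} (hm : ¬ IsScal m) {x y : E}
    (h : x • m = y • (1 : Matrix (Fin 2) (Fin 2) E)) : x = 0 ∧ y = 0 := by
  have hx : x = 0 := by
    by_contra hx
    apply hm
    refine ⟨x⁻¹ * y, ?_⟩
    rw [mul_smul, ← h, smul_smul, inv_mul_cancel₀ hx, one_smul]
  refine ⟨hx, ?_⟩
  rw [hx, zero_smul] at h
  have h1 := congrFun (congrFun h 0) 0
  simp at h1
  exact h1.symm

theorem pow_two_eq (m : Matrix (Fin 2) (Fin 2) E) :
    m ^ 2 = m.trace • m - m.det • (1 : Matrix (Fin 2) (Fin 2) E) := by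
  rw [pow_two, sq_eq]

theorem pow_three_eq (m : Matrix (Fin 2) (Fin 2) E) :
    m ^ 3 = (m.trace ^ 2 - m.det) • m - (m.trace * m.det) • (1 : Matrix (Fin 2) (Fin 2) E) := by
  rw [pow_succ, pow_two_eq, sub_mul, smul_mul_assoc, smul_mul_assoc, one_mul, sq_eq, smul_sub, smul_smul,
    smul_smul, sub_smul, pow_two]
  abel

theorem pow_four_eq (m : Matrix (Fin 2) (Fin 2) E) :
    m ^ 4 = (m.trace * (m.trace ^ 2 - 2 * m.det)) • m -
      ((m.trace ^ 2 - m.det) * m.det) • (1 : Matrix (Fin 2) (Fin 2) E) := by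
  rw [pow_succ, pow_three_eq, sub_mul, smul_mul_assoc, smul_mul_assoc, one_mul, sq_eq, smul_sub, smul_smul,
    smul_smul]
  have h : m.trace * (m.trace ^ 2 - 2 * m.det) = (m.trace ^ 2 - m.det) * m.trace - m.trace * m.det := by
    ring
  rw [h, sub_smul]
  abel

theorem pow_five_eq (m : Matrix (Fin 2) (Fin 2) E) :
    m ^ 5 = (m.trace ^ 4 - 3 * m.trace ^ 2 * m.det + m.det ^ 2) • m -
      (m.trace * (m.trace ^ 2 - 2 * m.det) * m.det) • (1 : Matrix (Fin 2) (Fin 2) E) := by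
  rw [pow_succ, pow_four_eq, sub_mul, smul_mul_assoc, smul_mul_assoc, one_mul, sq_eq, smul_sub, smul_smul,
    smul_smul]
  have h : m.trace ^ 4 - 3 * m.trace ^ 2 * m.det + m.det ^ 2 =
      (m.trace * (m.trace ^ 2 - 2 * m.det)) * m.trace - (m.trace ^ 2 - m.det) * m.det := by
    ring
  rw [h, sub_smul]
  abel

theorem split_scal {m : Matrix (Fin 2) (Fin 2) E} (hm : ¬ IsScal m) {x y z : E}
    (h : x • m - y • (1 : Matrix (Fin 2) (Fin 2) E) = z • 1) : x = 0 ∧ z = -y := by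
  have h1 : x • m = (z + y) • (1 : Matrix (Fin 2) (Fin 2) E) := by
    rw [add_smul, ← h]
    abel
  obtain ⟨h2, h3⟩ := coeff_zero hm h1
  exact ⟨h2, by linear_combination h3⟩

/-- trace of an element of projective order two -/
theorem trace_two {m : Matrix (Fin 2) (Fin 2) E} (hm : ¬ IsScal m) (h : IsScal (m ^ 2)) : m.trace = 0 := by
  obtain ⟨z, hz⟩ := h
  rw [pow_two_eq] at hz
  exact (split_scal hm hz).1

/-- trace of an element of projective order three, and its cube -/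
theorem trace_three {m : Matrix (Fin 2) (Fin 2) E} (hm : ¬ IsScal m) {z : E}
    (h : m ^ 3 = z • (1 : Matrix (Fin 2) (Fin 2) E)) : m.trace ^ 2 = m.det ∧ z = -m.trace ^ 3 := by
  rw [pow_three_eq] at h
  obtain ⟨h1, h2⟩ := split_scal hm h
  refine ⟨sub_eq_zero.1 h1, ?_⟩
  rw [h2]
  linear_combination m.trace * h1

/-- trace of an element of projective order four -/
theorem trace_four {m : Matrix (Fin 2) (Fin 2) E} (hm : ¬ IsScal (m ^ 2)) (h : IsScal (m ^ 4)) :
    m.trace ^ 2 = 2 * m.det := by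
  obtain ⟨z, hz⟩ := h
  have hm1 : ¬ IsScal m := by
    rintro ⟨a, ha⟩
    apply hm
    refine ⟨a * a, ?_⟩
    rw [ha, pow_two, smul_mul_smul_comm, one_mul]
  rw [pow_four_eq] at hz
  obtain ⟨h1, _⟩ := split_scal hm1 hz
  rcases mul_eq_zero.1 h1 with h2 | h2
  · exfalso
    apply hm
    refine ⟨-m.det, ?_⟩
    rw [pow_two_eq, h2, zero_smul, zero_sub, neg_smul]
  · exact sub_eq_zero.1 h2

/-- trace of an element of projective order five, and its fifth power -/
theorem trace_five {m : Matrix (Fin 2) (Fin 2) E} (hm : ¬ IsScal m) {z : E}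
    (h : m ^ 5 = z • (1 : Matrix (Fin 2) (Fin 2) E)) :
    m.trace ^ 4 - 3 * m.trace ^ 2 * m.det + m.det ^ 2 = 0 ∧
      z = -(m.trace * (m.trace ^ 2 - 2 * m.det) * m.det) := by
  rw [pow_five_eq] at h
  exact split_scal hm h

theorem scal_trace {a : E} : (a • (1 : Matrix (Fin 2) (Fin 2) E)).trace = 2 * a := by
  simp
  ring

theorem scal_det {a : E} : (a • (1 : Matrix (Fin 2) (Fin 2) E)).det = a * a := by
  simp [pow_two]

/-- the product of the traces of two matrices of projective order five with different invariants -/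
theorem five_prod [CharZero E] {t d t' d' z z' : E} (h : t ^ 4 - 3 * t ^ 2 * d + d ^ 2 = 0)
    (h' : t' ^ 4 - 3 * t' ^ 2 * d' + d' ^ 2 = 0) (hd : d * d' = 1) (hz : z = -(t * (t ^ 2 - 2 * d) * d))
    (hz' : z' = -(t' * (t' ^ 2 - 2 * d') * d')) (hzz : z * z' = 1) (hne : t ^ 2 * d' ≠ t' ^ 2 * d) :
    t * t' = -1 := by
  have hd0 : d ≠ 0 := left_ne_zero_of_mul_eq_one hd
  have hd0' : d' ≠ 0 := right_ne_zero_of_mul_eq_one hd
  -- invariants `x = t ^ 2 / d = t ^ 2 d'`, `y = t' ^ 2 d`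
  have hx : (t ^ 2 * d') ^ 2 - 3 * (t ^ 2 * d') + 1 = 0 := by
    linear_combination d' ^ 2 * h + (3 * t ^ 2 * d' - (d * d' + 1)) * hd
  have hy : (t' ^ 2 * d) ^ 2 - 3 * (t' ^ 2 * d) + 1 = 0 := by
    linear_combination d ^ 2 * h' + (3 * t' ^ 2 * d - (d * d' + 1)) * hd
  have hsum : t ^ 2 * d' + t' ^ 2 * d = 3 := by
    have h1 : (t ^ 2 * d' - t' ^ 2 * d) * (t ^ 2 * d' + t' ^ 2 * d - 3) = 0 := by
      linear_combination hx - hy
    rcases mul_eq_zero.1 h1 with h2 | h2
    · exact absurd (sub_eq_zero.1 h2) hne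
    · linear_combination h2
  have hprod : (t ^ 2 * d') * (t' ^ 2 * d) = 1 := by
    have : t' ^ 2 * d = 3 - t ^ 2 * d' := by linear_combination hsum
    rw [this]
    linear_combination -hx
  have hw2 : (t * t') ^ 2 = 1 := by
    linear_combination hprod - t ^ 2 * t' ^ 2 * hd
  -- the product of the scalars
  have hzz' : z * z' = (t * t') * ((t ^ 2 * d' - 2) * (t' ^ 2 * d - 2)) := by
    rw [hz, hz']
    linear_combination (t * t') * (-(2 * t ^ 2 * d') - 2 * t' ^ 2 * d + 4 * (d * d' + 1)) * hd +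
      0 * hsum
  have h3 : (t ^ 2 * d' - 2) * (t' ^ 2 * d - 2) = -1 := by
    linear_combination hprod - 2 * hsum
  rw [hzz', h3] at hzz
  linear_combination -hzz

end Pool.Agent.H15.QF
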