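import Pool.Agent.H15.QF.Rep
import Pool.Graph.R_pool_sql_team_seeded_1acbe0a2.Y144.DL.Desc
import Pool.Graph.R_pool_sql_team_seeded_1acbe0a2.Y144.DL.Perm

/-!
# Values of L-functions at a point
-/

set_option autoImplicit false

namespace Pool.Agent.H15.QF

open Matrix Pool.Agent.Y144.DL

variable {E : Type*} [Field E] {G : Type*} [Group G]

/-- The function `L(s, M ⊗ θ)` (Euler product with the traces `M` and `θ(Frob)`, embedding `σ` of the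
coefficients) has a meromorphic continuation to `ℂ` which is holomorphic at `1`, with value `z` at `1`. -/
def Val (M : FrobData E) (Fr : Nat.Primes → G) (θ : G → E) (σ : E →+* ℂ) (z : ℂ) : Prop :=
  ∃ Λ : ℂ → ℂ, IsLFunction M Fr θ σ Λ ∧ AnalyticAt ℂ Λ 1 ∧ Λ 1 = z

variable {M : FrobData E} {Fr : Nat.Primes → G} {θ θ' θ'' : G → E} {σ : E →+* ℂ} {z z' z'' : ℂ}

theorem Val.unique (h : Val M Fr θ σ z) (h' : Val M Fr θ σ z') : z = z' := by
  obtain ⟨Λ, h1, h2, rfl⟩ := h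
  obtain ⟨Λ', h1', h2', rfl⟩ := h'
  exact eq_of_eq_halfPlane h1.1 h1'.1 (a := M.a) (fun s hs => by rw [h1.2 s hs, h1'.2 s hs]) h2 h2'

theorem Val.add [Finite G] (h : Val M Fr θ σ z) (h' : Val M Fr θ' σ z') :
    Val M Fr (θ + θ') σ (z * z') := by
  obtain ⟨Λ, h1, h2, rfl⟩ := h
  obtain ⟨Λ', h1', h2', rfl⟩ := h'
  refine ⟨Λ * Λ', ⟨h1.1.mul h1'.1, ?_⟩, h2.mul h2', rfl⟩
  intro s hs
  rw [Pi.mul_apply, h1.2 s hs, h1'.2 s hs, logL_add M Fr θ θ' σ hs, Complex.exp_add]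

theorem Val.sub [Finite G] (h'' : Val M Fr θ'' σ z'') (h : Val M Fr θ σ z) (hz : z ≠ 0)
    (e : θ'' = θ' + θ) : Val M Fr θ' σ (z'' / z) := by
  obtain ⟨Λ'', h1'', h2'', rfl⟩ := h''
  obtain ⟨Λ, h1, h2, rfl⟩ := h
  refine ⟨Λ'' / Λ, ⟨h1''.1.div h1.1, ?_⟩, h2''.div h2 hz, rfl⟩
  intro s hs
  rw [Pi.div_apply, h1''.2 s hs, h1.2 s hs, e, logL_add M Fr θ' θ σ hs, Complex.exp_add,
    mul_div_cancel_right₀ _ (Complex.exp_ne_zero _)]

theorem Val.of_map {M : FrobData ℚ} {E : Type*} [Field E] [Algebra ℚ E] {Fr : Nat.Primes → G}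
    {θ : G → ℚ} {σ : E →+* ℂ} {z : ℂ}
    (h : Val (M.map E) Fr (fun g => algebraMap ℚ E (θ g)) σ z) : Val M Fr θ (algebraMap ℚ ℂ) z := by
  obtain ⟨Λ, h1, h2, rfl⟩ := h
  refine ⟨Λ, ⟨h1.1, ?_⟩, h2, rfl⟩
  intro s hs
  rw [h1.2 s hs, logL_map]
  congr 2
  exact Subsingleton.elim _ _

theorem Val.map {M : FrobData ℚ} {E : Type*} [Field E] [Algebra ℚ E] {Fr : Nat.Primes → G}
    {θ : G → ℚ} (σ : E →+* ℂ) {z : ℂ}
    (h : Val M Fr θ (algebraMap ℚ ℂ) z) : Val (M.map E) Fr (fun g => algebraMap ℚ E (θ g)) σ z := by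
  obtain ⟨Λ, h1, h2, rfl⟩ := h
  refine ⟨Λ, ⟨h1.1, ?_⟩, h2, rfl⟩
  intro s hs
  rw [h1.2 s hs, logL_map]
  congr 2
  exact Subsingleton.elim _ _

/-- descent of the rational factor -/
theorem rational_of {M : FrobData ℚ} {E : Type*} [Field E] [Algebra ℚ E] [Algebra.IsAlgebraic ℚ E]
    {Fr : Nat.Primes → G} {θ : G → ℚ} {w : ℂ} (hw : w ≠ 0) (e : E)
    (h : ∀ σ : E →+* ℂ, Val (M.map E) Fr (fun g => algebraMap ℚ E (θ g)) σ (σ e * w)) :
    ∃ q : ℚ, Val M Fr θ (algebraMap ℚ ℂ) (q * w) := by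
  classical
  have φ : E →ₐ[ℚ] ℂ := IsAlgClosed.lift
  have h1 : e ∈ (algebraMap ℚ E).range := by
    refine mem_range_of_embeddings (φ : E →+* ℂ) e ?_
    intro σ _
    have h2 := (h σ).of_map
    have h3 := (h (φ : E →+* ℂ)).of_map
    exact mul_right_cancel₀ hw (h2.unique h3)
  obtain ⟨q, rfl⟩ := h1
  refine ⟨q, ?_⟩
  have h2 := (h (φ : E →+* ℂ)).of_map
  have h3 : (φ : E →+* ℂ) (algebraMap ℚ E q) = (q : ℂ) := by
    simp
  rwa [h3] at h2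

/-- Deligne's conjecture at `s = 1` for the twist `h¹(A₀) ⊗ θ` of an elliptic curve `A₀` over `ℚ` with real
period `Ωp` and imaginary period `i Ωm`, where `θ` is a character with `a` eigenvalues `1` and `b` eigenvalues
`-1` at complex conjugation `c`: the function `L(s, A₀ ⊗ θ)` is holomorphic at `1` and its values for the
embeddings `σ` of the coefficients are `σ(e) Ωp ^ a (i Ωm) ^ b δ(θ)`, for some `e ∈ E` (possibly zero). -/
def Deligne (c : G) (M : FrobData E) (Fr : Nat.Primes → G) (A : ArtinPeriods E G) (Ωp Ωm : ℝ)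
    (θ : G → E) : Prop :=
  ∀ a b : ℕ, θ 1 = a + b → θ c = a - b → ∃ e : E, ∀ σ : E →+* ℂ,
    Val M Fr θ σ (σ e * ((Ωp : ℂ) ^ a * (Complex.I * Ωm) ^ b * A.δ θ σ))

end Pool.Agent.H15.QF
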